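import Pool.Agent.helper82.VD.SpecJ

set_option autoImplicit false

open Pool.Agent.VD Pool.Agent.VDE MeasureTheory Filter Set Topology
open scoped ENNReal

namespace Pool.Agent.VDG

noncomputable section

theorem GD3_proof (hGZD : GZD_stmt) (hGZO : GZO_stmt) : GD3_stmt := by
  intro C e C1 ν ρ0 hC he
  by_cases hcon : 1 ≤ C1 ∧ 0 < ρ0
  swap
  · refine ⟨1, 1, 1, one_pos, one_pos, le_rfl, ?_⟩
    intro m H' hH
    exact absurd ⟨hH.hb.hC, hH.hb.hρ⟩ hcon
  obtain ⟨hC1, hρ0⟩ := hcon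
  obtain ⟨e2, C2, he2, _, _, _, hD⟩ := hGZD C e C1 ρ0 hC he hC1 hρ0
  obtain ⟨e2', ε1, C3, he2', h2e', h2ρ', hε1, hC3, hCε, hO⟩ := hGZO C e C1 ρ0 hC he hC1 hρ0
  set e4 : ℝ := min e2 e2' with he4
  have he4pos : 0 < e4 := lt_min he2 he2'
  refine ⟨ε1, e4, max 1 (max (2 * e4 * Real.exp ν) (C1 * (C3 * ε1) * Real.exp ν)), hε1, he4pos,
    le_max_left _ _, ?_⟩
  intro m H' hH S _ μ d f H κ F τ hS hR z w w' T hw hw' hT hmem
  have hν := hH.hν
  have k1 : 2 * e4 * Real.exp ν ≤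
      max 1 (max (2 * e4 * Real.exp ν) (C1 * (C3 * ε1) * Real.exp ν)) :=
    (le_max_left _ _).trans (le_max_right _ _)
  have k2 : C1 * (C3 * ε1) * Real.exp ν ≤
      max 1 (max (2 * e4 * Real.exp ν) (C1 * (C3 * ε1) * Real.exp ν)) :=
    (le_max_right _ _).trans (le_max_right _ _)
  have n1 : ‖((0, w) : EE m)‖ = ‖w‖ := by
    rw [Prod.norm_def]; simp
  have n2 : ‖((0, w') : EE m)‖ = ‖w'‖ := by
    rw [Prod.norm_def]; simp
  have ha0 : ‖((0, w) : EE m)‖ ≤ e2 := by rw [n1]; exact hw.trans (min_le_left _ _)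
  have ha0' : ‖((0, w) : EE m)‖ ≤ e2' := by rw [n1]; exact hw.trans (min_le_right _ _)
  have ha : ‖((0, w') : EE m)‖ ≤ e := by
    rw [n2]
    have := hw'.trans (min_le_right e2 e2')
    linarith
  set n : ℕ := ⌊T⌋₊ with hn
  have hnT : (n : ℝ) ≤ T := Nat.floor_le hT
  have hTn : T < n + 1 := Nat.lt_floor_add_one T
  have hexp : Real.exp (-(ν * n)) ≤ Real.exp ν * Real.exp (-(ν * T)) := by
    rw [← Real.exp_add]
    refine Real.exp_le_exp.2 ?_
    have : ν * T ≤ ν * (n + 1) := mul_le_mul_of_nonneg_left hTn.le hν.le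
    linarith
  rcases Nat.eq_zero_or_pos n with h0 | hpos
  · have h1 : ‖w - w'‖ ≤ 2 * e4 := by
      have := norm_sub_le w w'
      linarith
    have h2 : (1 : ℝ) ≤ Real.exp ν * Real.exp (-(ν * T)) := by
      rw [h0] at hexp
      simpa using hexp
    calc ‖w - w'‖ ≤ 2 * e4 := h1
      _ ≤ 2 * e4 * (Real.exp ν * Real.exp (-(ν * T))) :=
          le_mul_of_one_le_right (by linarith) h2
      _ = 2 * e4 * Real.exp ν * Real.exp (-(ν * T)) := by ring
      _ ≤ _ := mul_le_mul_of_nonneg_right k1 (Real.exp_pos _).le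
  · have hmem' : κ z (0, w') ∈ BB d f n (κ z (0, w)) ε1 := by
      intro s hs
      exact hmem s ⟨hs.1, hs.2.trans hnT⟩
    have hSZ := (hO μ d f H H' κ F τ hS hH.hb hR z (0, w) ha0' n ε1 hε1.le le_rfl).2 (0, w') ha
      hmem'
    obtain ⟨_, _, horz, _⟩ := hD μ d f H H' κ F τ hS hH.hb hR z (0, w) ha0
    set u : EE m := (0, w') - (0, w) with hu
    have hSB : u ∈ SB (orz f κ F z (0, w)) n (C3 * ε1) := hSZ
    have hCρ : C3 * ε1 ≤ ρ0 := by linarith
    have key := hH.nbd n (orz f κ F z (0, w)) (fun i => itr (orz f κ F z (0, w)) i u)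
      (fun _ => 0) hpos (fun i _ => (horz i).1) (fun i _ => rfl) (fun i _ => (horz i).2.symm)
      (fun i hi => (hSB i hi).trans hCρ) (fun i _ => by rw [norm_zero]; exact hρ0.le) 0
      (Nat.zero_le n)
    have hu1 : u.1 = 0 := by rw [hu]; simp
    have hu2 : u.2 = w' - w := rfl
    have hit0 : itr (orz f κ F z (0, w)) 0 u = u := rfl
    simp only [hit0, sub_zero, hu1, norm_zero, mul_zero, zero_add, Nat.cast_zero] at key
    have hfst : ‖(itr (orz f κ F z (0, w)) n u).1‖ ≤ C3 * ε1 :=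
      (norm_fst_le _).trans (hSB n le_rfl)
    have hnorm : ‖w - w'‖ ≤ ‖u‖ := by
      rw [norm_sub_rev, ← hu2]
      exact norm_snd_le u
    calc ‖w - w'‖ ≤ ‖u‖ := hnorm
      _ ≤ C1 * (Real.exp (-(ν * n)) * ‖(itr (orz f κ F z (0, w)) n u).1‖) := key
      _ ≤ C1 * ((Real.exp ν * Real.exp (-(ν * T))) * (C3 * ε1)) := by
          refine mul_le_mul_of_nonneg_left ?_ (by linarith)
          exact mul_le_mul hexp hfst (norm_nonneg _) (by positivity)
      _ = C1 * (C3 * ε1) * Real.exp ν * Real.exp (-(ν * T)) := by ring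
      _ ≤ _ := mul_le_mul_of_nonneg_right k2 (Real.exp_pos _).le

end

end Pool.Agent.VDG
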