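import Pool.Agent.helper82.VD.SpecG

set_option autoImplicit false

open Pool.Agent.VDE MeasureTheory Filter Set Topology
open scoped ENNReal

namespace Pool.Agent.VDG

noncomputable section

theorem GDR_qq {m : ℕ} (b : EE m) : |qq b| ≤ ‖b‖ ^ 2 := by
  unfold qq
  calc |inner ℝ b.1 b.2| ≤ ‖b.1‖ * ‖b.2‖ := abs_real_inner_le_norm _ _
    _ ≤ ‖b‖ * ‖b‖ := mul_le_mul (norm_fst_le b) (norm_snd_le b) (norm_nonneg _) (norm_nonneg _)
    _ = ‖b‖ ^ 2 := by ring

theorem GDR_proof : GDR_stmt := by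
  intro S _ m μ d f H C e κ F τ C1 ρ0 hS hH
  have hd0 : ∀ (x : S) (i : ℕ), d (f 1 (f i x)) (f (i + 1) x) = 0 := by
    intro x i
    rw [← hS.fa, add_comm (1 : ℝ) i]
    exact hS.dz _
  have hA : ∀ (x : S) (i : ℕ), H (orb f F x i) ∧ orb f F x i 0 = 0 := by
    intro x i
    have h1 : d (f 1 (f i x)) (f (i + 1) x) ≤ e := by rw [hd0]; exact hS.he.le
    refine ⟨hS.poH _ _ h1, ?_⟩
    have h2 := hS.po0 _ _ h1
    rw [hd0, mul_zero] at h2
    exact norm_le_zero_iff.1 h2
  refine ⟨hA, ?_, ?_⟩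
  · intro x n k
    unfold orb
    have e1 : f (k : ℝ) (f (n : ℝ) x) = f ((n + k : ℕ) : ℝ) x := by
      rw [← hS.fa]; congr 1; push_cast; ring
    have e2 : f ((k : ℝ) + 1) (f (n : ℝ) x) = f (((n + k : ℕ) : ℝ) + 1) x := by
      rw [← hS.fa]; congr 1; push_cast; ring
    rw [e1, e2]
  · intro x n ρ a hρe hρ0 ha
    have hρ : 0 ≤ ρ := (norm_nonneg _).trans (ha 0 (Nat.zero_le n))
    have hC : 0 < C := lt_of_lt_of_le one_pos hS.hC
    have hC1 : 0 < C1 := lt_of_lt_of_le one_pos hH.hC
    have hstep : ∀ i < n, κ (f ((i : ℝ) + 1) x) (itr (orb f F x) (i + 1) a) =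
        f (τ (f i x) (f (i + 1) x) (itr (orb f F x) i a)) (κ (f i x) (itr (orb f F x) i a)) ∧
        |τ (f i x) (f (i + 1) x) (itr (orb f F x) i a) - 1| ≤ C * ‖itr (orb f F x) i a‖ ^ 2 := by
      intro i hi
      have h1 : d (f 1 (f i x)) (f (i + 1) x) ≤ e := by rw [hd0]; exact hS.he.le
      have h2 := hS.poF _ _ h1 (itr (orb f F x) i a) ((ha i hi.le).trans hρe)
      rw [hd0, add_zero] at h2
      exact h2
    have hq : ∀ i < n, C1⁻¹ * ‖itr (orb f F x) i a‖ ^ 2 ≤
        qq (itr (orb f F x) (i + 1) a) - qq (itr (orb f F x) i a) := by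
      intro i hi
      have := hH.qs _ (hA x i).1 (hA x i).2 (itr (orb f F x) i a) ((ha i hi.le).trans hρ0)
      have e1 : itr (orb f F x) (i + 1) a = orb f F x i (itr (orb f F x) i a) := rfl
      rw [e1]
      linarith
    refine ⟨fun i => ∑ l ∈ Finset.range i, τ (f l x) (f (l + 1) x) (itr (orb f F x) l a), ?_⟩
    intro i hi
    constructor
    · induction i with
      | zero =>
        simp only [Finset.range_zero, Finset.sum_empty, Nat.cast_zero, hS.f0]
        rfl
      | succ i ih =>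
        have ih' := ih (by omega)
        simp only at ih'
        show f (∑ l ∈ Finset.range (i + 1), τ (f l x) (f (l + 1) x) (itr (orb f F x) l a))
          (κ x a) = _
        rw [Finset.sum_range_succ, add_comm, hS.fa, ih', Nat.cast_succ, (hstep i (by omega)).1]
    · have e1 : ∑ l ∈ Finset.range i, τ (f l x) (f (l + 1) x) (itr (orb f F x) l a) - i =
          ∑ l ∈ Finset.range i, (τ (f l x) (f (l + 1) x) (itr (orb f F x) l a) - 1) := by
        rw [Finset.sum_sub_distrib]
        simp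
      rw [e1]
      have s1 : |∑ l ∈ Finset.range i, (τ (f l x) (f (l + 1) x) (itr (orb f F x) l a) - 1)| ≤
          ∑ l ∈ Finset.range i, C * C1 * (qq (itr (orb f F x) (l + 1) a) -
            qq (itr (orb f F x) l a)) := by
        refine (Finset.abs_sum_le_sum_abs _ _).trans (Finset.sum_le_sum fun l hl => ?_)
        have hl' : l < n := lt_of_lt_of_le (Finset.mem_range.1 hl) hi
        refine (hstep l hl').2.trans ?_
        rw [mul_assoc]
        refine mul_le_mul_of_nonneg_left ?_ hC.le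
        have := hq l hl'
        rw [inv_mul_le_iff₀ hC1] at this
        exact this
      refine s1.trans ?_
      rw [← Finset.mul_sum, Finset.sum_range_sub (fun l => qq (itr (orb f F x) l a))]
      have b1 : |qq (itr (orb f F x) i a)| ≤ ρ ^ 2 :=
        (GDR_qq _).trans (pow_le_pow_left₀ (norm_nonneg _) (ha i hi) 2)
      have b2 : |qq (itr (orb f F x) 0 a)| ≤ ρ ^ 2 :=
        (GDR_qq _).trans (pow_le_pow_left₀ (norm_nonneg _) (ha 0 (Nat.zero_le n)) 2)
      have b3 := le_of_abs_le b1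
      have b4 := neg_le_of_abs_le b2
      calc C * C1 * (qq (itr (orb f F x) i a) - qq (itr (orb f F x) 0 a)) ≤
          C * C1 * (2 * ρ ^ 2) :=
            mul_le_mul_of_nonneg_left (by linarith) (by positivity)
        _ = 2 * C * C1 * ρ ^ 2 := by ring

end

end Pool.Agent.VDG
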